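import Mathlib
import Pool.Agent.Lib.MP_60829e_nt.ST.ZDefs

/-! # Definitions for the hyperplane theorem -/

open MvPolynomial Module

namespace MP60829e.HP

/-- The linear forms `∑ l, om l * v (i, l)`. -/
noncomputable def fM {e K : ℕ} (om : Fin (K + 1) → ℂ) :
    (Fin e × Fin (K + 1) → ℂ) →ₗ[ℂ] (Fin e → ℂ) where
  toFun v := fun i => ∑ l, om l * v (i, l)
  map_add' := by
    intro v w
    funext i
    rw [Pi.add_apply, ← Finset.sum_add_distrib]
    exact Finset.sum_congr rfl fun l _ => by rw [Pi.add_apply, mul_add]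
  map_smul' := by
    intro c v
    funext i
    rw [RingHom.id_apply, Pi.smul_apply, smul_eq_mul, Finset.mul_sum]
    exact Finset.sum_congr rfl fun l _ => by rw [Pi.smul_apply, smul_eq_mul]; ring

theorem fM_apply {e K : ℕ} (om : Fin (K + 1) → ℂ) (v : Fin e × Fin (K + 1) → ℂ) (i : Fin e) :
    fM om v i = ∑ l, om l * v (i, l) := rfl

/-- The common kernel. -/
noncomputable def WM {e K : ℕ} (om : Fin (K + 1) → ℂ) :
    Submodule ℂ (Fin e × Fin (K + 1) → ℂ) := LinearMap.ker (fM om)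

theorem mem_WM {e K : ℕ} {om : Fin (K + 1) → ℂ} {v : Fin e × Fin (K + 1) → ℂ} :
    v ∈ WM om ↔ ∀ i, ∑ l, om l * v (i, l) = 0 := by
  unfold WM
  rw [LinearMap.mem_ker]
  exact funext_iff

end MP60829e.HP
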