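import Mathlib
import Pool.Agent.Lib.MP_60829e_nt.HP.CDefsM

/-! # The space `WM` and its bases -/

open MvPolynomial Module

namespace MP60829e.HP

private noncomputable def qv {K : ℕ} (om : Fin (K + 1) → ℂ) (i : Fin K) : Fin (K + 1) → ℂ :=
  Fin.cons (-om i.succ) (fun j => if j = i then om 0 else 0)

private theorem alg_qv {K : ℕ} (om : Fin (K + 1) → ℂ) (halg : ∀ i, IsAlgebraic ℚ (om i))
    (i : Fin K) (j : Fin (K + 1)) : IsAlgebraic ℚ (qv om i j) := by
  unfold qv
  refine Fin.cases ?_ (fun j => ?_) j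
  · rw [Fin.cons_zero]
    exact (halg _).neg
  · rw [Fin.cons_succ]
    split_ifs
    · exact halg 0
    · exact isAlgebraic_zero

private theorem sum_qv {K : ℕ} (om : Fin (K + 1) → ℂ) (i : Fin K) :
    ∑ j, om j * qv om i j = 0 := by
  rw [Fin.sum_univ_succ]
  unfold qv
  simp only [Fin.cons_zero, Fin.cons_succ, mul_ite, mul_zero]
  rw [Finset.sum_ite_eq' Finset.univ i, if_pos (Finset.mem_univ i)]
  ring

private theorem repr_qv {K : ℕ} (om : Fin (K + 1) → ℂ) (h0 : om 0 ≠ 0) (v : Fin (K + 1) → ℂ)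
    (hv : ∑ j, om j * v j = 0) : v = ∑ i : Fin K, (v i.succ / om 0) • qv om i := by
  funext j
  rw [Finset.sum_apply]
  refine Fin.cases ?_ (fun j => ?_) j
  · simp only [Pi.smul_apply, smul_eq_mul]
    unfold qv
    simp only [Fin.cons_zero]
    rw [Fin.sum_univ_succ] at hv
    have h1 : ∀ i : Fin K, v i.succ / om 0 * -om i.succ = -(om i.succ * v i.succ) / om 0 := by
      intro i
      ring
    simp only [h1]
    rw [← Finset.sum_div, Finset.sum_neg_distrib, eq_div_iff h0]
    linear_combination hv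
  · simp only [Pi.smul_apply, smul_eq_mul]
    unfold qv
    simp only [Fin.cons_succ, mul_ite, mul_zero]
    rw [Finset.sum_ite_eq Finset.univ j, if_pos (Finset.mem_univ j), div_mul_cancel₀ _ h0]

/-- The algebraic basis vectors of `WM om`. -/
noncomputable def qM {e K : ℕ} (om : Fin (K + 1) → ℂ) (t : Fin e × Fin K) :
    Fin e × Fin (K + 1) → ℂ := fun p => if p.1 = t.1 then qv om t.2 p.2 else 0

theorem alg_qM {e K : ℕ} (om : Fin (K + 1) → ℂ) (halg : ∀ i, IsAlgebraic ℚ (om i))
    (t : Fin e × Fin K) (p : Fin e × Fin (K + 1)) : IsAlgebraic ℚ (qM om t p) := by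
  unfold qM
  split_ifs
  · exact alg_qv om halg _ _
  · exact isAlgebraic_zero

theorem qM_mem {e K : ℕ} (om : Fin (K + 1) → ℂ) (t : Fin e × Fin K) : qM om t ∈ WM om := by
  rw [mem_WM]
  intro i
  unfold qM
  by_cases h : i = t.1
  · simp only [h, if_true]
    exact sum_qv om t.2
  · simp only [h, if_false, mul_zero, Finset.sum_const_zero]

theorem repr_qM {e K : ℕ} (om : Fin (K + 1) → ℂ) (h0 : om 0 ≠ 0)
    {v : Fin e × Fin (K + 1) → ℂ} (hv : v ∈ WM om) :
    ∃ ξ : Fin e × Fin K → ℂ, v = ∑ t, ξ t • qM om t := by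
  rw [mem_WM] at hv
  refine ⟨fun t => v (t.1, t.2.succ) / om 0, ?_⟩
  funext ⟨i, j⟩
  have h1 := congrFun (repr_qv om h0 (fun j => v (i, j)) (hv i)) j
  rw [Finset.sum_apply] at h1
  rw [Finset.sum_apply, Fintype.sum_prod_type, Finset.sum_eq_single i]
  · simp only [qM, if_true, Pi.smul_apply] at h1 ⊢
    exact h1
  · intro i' _ hi'
    refine Finset.sum_eq_zero fun l _ => ?_
    rw [Pi.smul_apply]
    unfold qM
    rw [if_neg (Ne.symm hi'), smul_zero]
  · intro h
    exact absurd (Finset.mem_univ i) h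

/-- A section of `fM om`. -/
noncomputable def sM {e K : ℕ} (om : Fin (K + 1) → ℂ) (c : Fin e → ℂ) :
    Fin e × Fin (K + 1) → ℂ := fun p => if p.2 = 0 then c p.1 / om 0 else 0

theorem fM_sM {e K : ℕ} (om : Fin (K + 1) → ℂ) (h0 : om 0 ≠ 0) (c : Fin e → ℂ) :
    fM om (sM om c) = c := by
  funext i
  rw [fM_apply, Fin.sum_univ_succ]
  simp only [sM, if_true, Fin.succ_ne_zero, if_false, mul_zero, Finset.sum_const_zero, add_zero]
  exact mul_div_cancel₀ _ h0

theorem sM_lin {e K : ℕ} (om : Fin (K + 1) → ℂ) {u : ℕ} (x : Fin u → ℂ) (c : Fin u → Fin e → ℂ) :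
    sM om (∑ j, x j • c j) = ∑ j, x j • sM om (c j) := by
  funext p
  rw [Finset.sum_apply]
  unfold sM
  by_cases h : p.2 = 0
  · simp only [h, if_true, Finset.sum_apply, Pi.smul_apply, smul_eq_mul, Finset.sum_div]
    exact Finset.sum_congr rfl fun j _ => by ring
  · simp only [h, if_false, Pi.smul_apply, smul_zero, Finset.sum_const_zero]

theorem fM_surjective {e K : ℕ} (om : Fin (K + 1) → ℂ) (h0 : om 0 ≠ 0) :
    Function.Surjective (fM (e := e) om) := fun c => ⟨sM om c, fM_sM om h0 c⟩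

/-- The hyperplane orthogonal to `a` has `e' = e - 1` generators. -/
theorem exists_hyp {e' : ℕ} (a : Fin (e' + 1) → ℂ) (ha : a ≠ 0) :
    ∃ c : Fin e' → Fin (e' + 1) → ℂ, (∀ j, ∑ i, a i * c j i = 0) ∧
      ∀ w : Fin (e' + 1) → ℂ, ∑ i, a i * w i = 0 → ∃ x : Fin e' → ℂ, w = ∑ j, x j • c j := by
  classical
  obtain ⟨i0, hi0⟩ := Function.ne_iff.1 ha
  rw [Pi.zero_apply] at hi0
  refine ⟨fun j => fun i => if i = i0.succAbove j then a i0 else
    if i = i0 then - a (i0.succAbove j) else 0, fun j => ?_, fun w hw => ?_⟩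
  · rw [Fin.sum_univ_succAbove _ i0, Finset.sum_eq_single j]
    · beta_reduce
      rw [if_neg (Fin.succAbove_ne i0 j).symm, if_pos rfl, if_pos rfl]
      ring
    · intro j' _ hj'
      beta_reduce
      rw [if_neg fun h => hj' (Fin.succAbove_right_injective h),
        if_neg (Fin.succAbove_ne i0 j'), mul_zero]
    · intro h
      exact absurd (Finset.mem_univ j) h
  · refine ⟨fun j => w (i0.succAbove j) / a i0, ?_⟩
    funext i
    rw [Finset.sum_apply]
    simp only [Pi.smul_apply, smul_eq_mul]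
    by_cases hi : i = i0
    · subst hi
      rw [Fin.sum_univ_succAbove _ i] at hw
      have h1 : ∀ j, w (i.succAbove j) / a i * (if i = i.succAbove j then a i else
          if i = i then - a (i.succAbove j) else 0) =
          - (a (i.succAbove j) * w (i.succAbove j)) / a i := by
        intro j
        rw [if_neg (Fin.succAbove_ne i j).symm, if_pos rfl]
        ring
      rw [Finset.sum_congr rfl fun j _ => h1 j, ← Finset.sum_div, Finset.sum_neg_distrib,
        eq_div_iff hi0]
      linear_combination hw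
    · obtain ⟨j, rfl⟩ := Fin.exists_succAbove_eq hi
      rw [Finset.sum_eq_single j]
      · rw [if_pos rfl, div_mul_cancel₀ _ hi0]
      · intro j' _ hj'
        rw [if_neg fun h => hj' (Fin.succAbove_right_injective h).symm,
          if_neg (Fin.succAbove_ne i0 j), mul_zero]
      · intro h
        exact absurd (Finset.mem_univ j) h

/-- The algebraic directions `q` (a basis of `WM om`) and `e'` further directions `v0` which together
span the preimage of the hyperplane `∑ a i * w i = 0`. -/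
theorem exists_WM {e' K : ℕ} (om : Fin (K + 1) → ℂ) (halg : ∀ i, IsAlgebraic ℚ (om i))
    (h0 : om 0 ≠ 0) (a : Fin (e' + 1) → ℂ) (ha : a ≠ 0) :
    ∃ q : Fin ((e' + 1) * K) → Fin (e' + 1) × Fin (K + 1) → ℂ,
      (∀ t i, IsAlgebraic ℚ (q t i)) ∧
      Submodule.span ℂ (Set.range q) = WM om ∧
      ∃ v0 : Fin e' → Fin (e' + 1) × Fin (K + 1) → ℂ, ∀ v, ∑ i, a i * fM om v i = 0 →
        v ∈ Submodule.span ℂ (Set.range v0 ∪ Set.range q) := by
  obtain ⟨c, -, hc⟩ := exists_hyp a ha
  have hsp : Submodule.span ℂ (Set.range (qM (e := e' + 1) om)) = WM om := by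
    apply le_antisymm
    · rw [Submodule.span_le]
      rintro _ ⟨t, rfl⟩
      exact qM_mem om t
    · intro v hv
      obtain ⟨ξ, hξ⟩ := repr_qM om h0 hv
      rw [hξ]
      exact Submodule.sum_mem _ fun t _ => Submodule.smul_mem _ _ (Submodule.subset_span ⟨t, rfl⟩)
  have hrange : Set.range ((qM (e := e' + 1) om) ∘ (finProdFinEquiv (m := e' + 1) (n := K)).symm) =
      Set.range (qM (e := e' + 1) om) := EquivLike.range_comp _ _
  refine ⟨qM om ∘ finProdFinEquiv.symm, fun t i => alg_qM om halg _ _, ?_,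
    fun j => sM om (c j), fun v hv => ?_⟩
  · rw [hrange, hsp]
  · rw [Submodule.span_union, hrange, hsp]
    obtain ⟨x, hx⟩ := hc (fM om v) hv
    have h1 : sM om (fM om v) ∈ Submodule.span ℂ (Set.range fun j => sM om (c j)) := by
      rw [hx, sM_lin]
      exact Submodule.sum_mem _ fun t _ => Submodule.smul_mem _ _ (Submodule.subset_span ⟨t, rfl⟩)
    have h2 : v - sM om (fM om v) ∈ WM om := by
      unfold WM
      rw [LinearMap.mem_ker, map_sub, fM_sM om h0, sub_self]
    have h3 : v = sM om (fM om v) + (v - sM om (fM om v)) := by abel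
    rw [h3]
    exact Submodule.add_mem_sup h1 h2

/-- Rank-nullity for `fM om`. -/
theorem finrank_WM {e K : ℕ} (om : Fin (K + 1) → ℂ) (h0 : om 0 ≠ 0) :
    finrank ℂ (WM (e := e) om) + e = e * (K + 1) := by
  have h1 := (fM (e := e) om).finrank_range_add_finrank_ker
  rw [LinearMap.range_eq_top.2 (fM_surjective om h0), finrank_top,
    Module.finrank_fintype_fun_eq_card, Module.finrank_fintype_fun_eq_card, Fintype.card_prod,
    Fintype.card_fin, Fintype.card_fin] at h1
  rw [← h1, add_comm]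
  rfl

end MP60829e.HP
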