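import Mathlib
import Pool.Agent.Lib.MP_60829e_nt.ST.CForm
import Pool.Agent.Lib.MP_60829e_nt.ST.CCount
import Pool.Agent.Lib.MP_60829e_nt.ST.StrField

/-! # The rank of the group of relations -/

open MvPolynomial Module

namespace MP60829e.HP

open MP60829e.ST

/-- `perp Λ` is the span of its integer vectors. -/
theorem rk_perp_span {σ : Type} [Fintype σ] (Λ : AddSubgroup (σ → ℤ)) :
    perp Λ = Submodule.span ℂ {v : σ → ℂ | ∃ r : σ → ℤ, (fun i => (r i : ℂ)) ∈ perp Λ ∧
      v = fun i => (r i : ℂ)} := by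
  apply le_antisymm
  · intro v hv
    by_contra hn
    obtain ⟨φ, hφ0, hφ⟩ := Submodule.exists_le_ker_of_notMem hn
    apply hφ0
    refine perp_int Λ φ (fun r hr => ?_) v hv
    have : (fun i => (r i : ℂ)) ∈ LinearMap.ker φ :=
      hφ (Submodule.subset_span ⟨r, hr, rfl⟩)
    exact this
  · rw [Submodule.span_le]
    rintro _ ⟨r, hr, rfl⟩
    exact hr

/-- An adapted basis of a subspace which is spanned by vectors with algebraic coordinates. -/
theorem rk_basis {e : ℕ} (S : Set (Fin e → ℂ)) (hS : ∀ w ∈ S, ∀ i, IsAlgebraic ℚ (w i)) :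
    ∃ (J : Finset (Fin e)) (b : {j // j ∈ J} → Fin e → ℂ),
      (∀ j i, IsAlgebraic ℚ (b j i)) ∧
      (∀ j j' : {j // j ∈ J}, b j j'.1 = if j = j' then 1 else 0) ∧
      (∀ w ∈ Submodule.span ℂ S, w = ∑ j, w j.1 • b j) ∧
      J.card = finrank ℂ (Submodule.span ℂ S) := by
  classical
  set G : Submodule Qa (Fin e → Qa) :=
    Submodule.span Qa {g | (fun i => (g i : ℂ)) ∈ S} with hG
  obtain ⟨I, -, hI1, hI2⟩ := exists_coord G
  have hy : ∀ j : {j // j ∈ Iᶜ}, ∃ t ∈ G, ∀ i, i ∉ I → (Pi.single j.1 1 : Fin e → Qa) i = t i :=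
    fun j => hI2 _
  choose t htG ht using hy
  have hGU : ∀ g ∈ G, (fun i => (g i : ℂ)) ∈ Submodule.span ℂ S := by
    intro g hg
    rw [hG] at hg
    induction hg using Submodule.span_induction with
    | mem g hg => exact Submodule.subset_span hg
    | zero =>
      have : (fun i => (((0 : Fin e → Qa) i : Qa) : ℂ)) = 0 := by
        funext i
        simp
      rw [this]
      exact Submodule.zero_mem _
    | add x y _ _ hx hy =>
      have : (fun i => (((x + y) i : Qa) : ℂ)) = (fun i => (x i : ℂ)) + fun i => (y i : ℂ) := by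
        funext i
        simp
      rw [this]
      exact Submodule.add_mem _ hx hy
    | smul c x _ hx =>
      have : (fun i => (((c • x) i : Qa) : ℂ)) = (c : ℂ) • fun i => (x i : ℂ) := by
        funext i
        simp
      rw [this]
      exact Submodule.smul_mem _ _ hx
  have hdelta : ∀ j j' : {j // j ∈ Iᶜ}, t j j'.1 = if j = j' then 1 else 0 := by
    intro j j'
    rw [← ht j j'.1 (Finset.mem_compl.1 j'.2), Pi.single_apply]
    simp only [Subtype.ext_iff, eq_comm]
  have hrep : ∀ w ∈ Submodule.span ℂ S, w = ∑ j : {j // j ∈ Iᶜ}, w j.1 • fun i => (t j i : ℂ) := by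
    intro w hw
    induction hw using Submodule.span_induction with
    | mem w hw =>
      have hwa := hS w hw
      have hgw : ∃ g : Fin e → Qa, ∀ i, (g i : ℂ) = w i :=
        ⟨fun i => ⟨w i, mem_algebraicClosure_iff.2 (hwa i)⟩, fun i => rfl⟩
      obtain ⟨g, hg⟩ := hgw
      have hgG : g ∈ G := by
        rw [hG]
        apply Submodule.subset_span
        have : (fun i => (g i : ℂ)) = w := funext hg
        rw [Set.mem_setOf_eq, this]
        exact hw
      have h1 : g - ∑ j : {j // j ∈ Iᶜ}, g j.1 • t j = 0 := by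
        apply hI1
        · exact Submodule.sub_mem _ hgG (Submodule.sum_mem _ fun j _ =>
            Submodule.smul_mem _ _ (htG j))
        · intro i hi
          rw [Pi.sub_apply, Finset.sum_apply, sub_eq_zero]
          have h2 : ∀ j : {j // j ∈ Iᶜ}, (g j.1 • t j) i =
              if j = ⟨i, Finset.mem_compl.2 hi⟩ then g i else 0 := by
            intro j
            rw [Pi.smul_apply, smul_eq_mul]
            have h3 := hdelta j ⟨i, Finset.mem_compl.2 hi⟩
            simp only at h3
            rw [h3]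
            split_ifs with h4
            · rw [mul_one, h4]
            · rw [mul_zero]
          simp only [h2]
          rw [Finset.sum_ite_eq' Finset.univ, if_pos (Finset.mem_univ _)]
      have h2 := sub_eq_zero.1 h1
      funext i
      have h3 := congrArg (fun z : Qa => (z : ℂ)) (congrFun h2 i)
      simp only [Finset.sum_apply, Pi.smul_apply, smul_eq_mul] at h3 ⊢
      rw [← hg i, h3]
      push_cast
      refine Finset.sum_congr rfl fun j _ => ?_
      rw [hg]
    | zero => simp
    | add x y _ _ hx hy =>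
      conv_lhs => rw [hx, hy]
      rw [← Finset.sum_add_distrib]
      refine Finset.sum_congr rfl fun j _ => ?_
      rw [Pi.add_apply, add_smul]
    | smul c x _ hx =>
      conv_lhs => rw [hx]
      rw [Finset.smul_sum]
      refine Finset.sum_congr rfl fun j _ => ?_
      rw [Pi.smul_apply, smul_smul, smul_eq_mul]
  refine ⟨Iᶜ, fun j i => (t j i : ℂ), fun j i => mem_algebraicClosure_iff.1 (t j i).2,
    fun j j' => ?_, hrep, ?_⟩
  · simp only [hdelta]
    split_ifs <;> simp
  · -- a basis
    have hli : LinearIndependent ℂ fun j : {j // j ∈ Iᶜ} => (fun i => (t j i : ℂ) : Fin e → ℂ) := by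
      rw [Fintype.linearIndependent_iff]
      intro c hc j
      have h1 := congrFun hc j.1
      rw [Finset.sum_apply, Pi.zero_apply] at h1
      have h2 : ∀ j' : {j // j ∈ Iᶜ}, (c j' • fun i => (t j' i : ℂ)) j.1 =
          if j' = j then c j else 0 := by
        intro j'
        rw [Pi.smul_apply, smul_eq_mul, hdelta]
        split_ifs with h
        · rw [h]; simp
        · simp
      simp only [h2] at h1
      rwa [Finset.sum_ite_eq' Finset.univ, if_pos (Finset.mem_univ _)] at h1
    have hspan : Submodule.span ℂ (Set.range fun j : {j // j ∈ Iᶜ} =>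
        (fun i => (t j i : ℂ) : Fin e → ℂ)) = Submodule.span ℂ S := by
      apply le_antisymm
      · rw [Submodule.span_le]
        rintro _ ⟨j, rfl⟩
        exact hGU _ (htG j)
      · intro w hw
        rw [hrep w hw]
        exact Submodule.sum_mem _ fun j _ => Submodule.smul_mem _ _
          (Submodule.subset_span ⟨j, rfl⟩)
    rw [← hspan, finrank_span_eq_card hli, Fintype.card_coe]

/-- The induction hypothesis: the bound `e' (e' + 1)` for all `e' < e`. -/
def RkHyp (e : ℕ) : Prop := ∀ e' < e, ∀ a : Fin e' → ℂ, LinearIndependent Qa a →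
  ∀ V : Submodule Qa (Fin e' → ℂ), (∀ v ∈ V, ∀ i, v i ∈ Lsp) →
    (∀ v ∈ V, ∑ i, a i * v i = 0) → Module.rank Qa V ≤ ((e' * (e' + 1) : ℕ) : Cardinal)

/-- The space of the coefficients of the vectors of `span v` which lie in an algebraic subspace. -/
theorem rk_coeff {e N : ℕ} (IH : RkHyp e) (a : Fin e → ℂ) (ha : LinearIndependent Qa a)
    (v : Fin N → Fin e → ℂ) (hv : LinearIndependent Qa v) (hvL : ∀ j i, v j i ∈ Lsp)
    (hav : ∀ j, ∑ i, a i * v j i = 0) (J : Finset (Fin e)) (hJ : J.card < e)
    (b : {j // j ∈ J} → Fin e → ℂ) (hb : ∀ j i, IsAlgebraic ℚ (b j i))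
    (hdelta : ∀ j j' : {j // j ∈ J}, b j j'.1 = if j = j' then 1 else 0)
    (Z : Submodule Qa (Fin N → Qa))
    (hZ : ∀ c ∈ Z, ∀ i, (∑ j, (c j : ℂ) * v j i) =
      ∑ k : {j // j ∈ J}, (∑ j, (c j : ℂ) * v j k.1) * b k i) :
    finrank Qa Z ≤ J.card * (J.card + 1) := by
  classical
  set g := J.card with hg
  have eq : {j // j ∈ J} ≃ Fin g := Fintype.equivFinOfCardEq (by rw [Fintype.card_coe])
  -- the new form
  set a' : Fin g → ℂ := fun k => ∑ i, a i * b (eq.symm k) i with ha'
  have hbQ : ∀ j i, ∃ z : Qa, (z : ℂ) = b j i := fun j i =>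
    ⟨⟨b j i, mem_algebraicClosure_iff.2 (hb j i)⟩, rfl⟩
  choose bq hbq using hbQ
  have ha'i : LinearIndependent Qa a' := by
    rw [Fintype.linearIndependent_iff]
    intro c hc
    have h1 : ∑ i, (∑ k, c k * bq (eq.symm k) i) • a i = 0 := by
      rw [← hc]
      have e1 : ∀ i, (∑ k, c k * bq (eq.symm k) i) • a i =
          ∑ k, (c k : ℂ) * (a i * b (eq.symm k) i) := by
        intro i
        rw [Algebra.smul_def, map_sum, Finset.sum_mul]
        refine Finset.sum_congr rfl fun k _ => ?_
        rw [map_mul]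
        have e2 : (algebraMap Qa ℂ) (bq (eq.symm k) i) = b (eq.symm k) i := hbq _ _
        have e3 : (algebraMap Qa ℂ) (c k) = (c k : ℂ) := rfl
        rw [e2, e3]
        ring
      simp only [e1]
      rw [Finset.sum_comm]
      refine Finset.sum_congr rfl fun k _ => ?_
      rw [ha', Algebra.smul_def]
      have e3 : (algebraMap Qa ℂ) (c k) = (c k : ℂ) := rfl
      rw [e3, Finset.mul_sum]
    have h2 := Fintype.linearIndependent_iff.1 ha _ h1
    intro k
    have h3 := h2 (eq.symm k).1
    have h4 : ∀ k', c k' * bq (eq.symm k') (eq.symm k).1 = if k' = k then c k else 0 := by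
      intro k'
      have h5 := hdelta (eq.symm k') (eq.symm k)
      rw [← hbq] at h5
      split_ifs with h6
      · rw [h6] at h5 ⊢
        rw [if_pos rfl] at h5
        have h7 : bq (eq.symm k) (eq.symm k).1 = 1 := by
          apply Subtype.ext
          exact h5
        rw [h7, mul_one]
      · rw [if_neg (fun h => h6 (eq.symm.injective h))] at h5
        have h7 : bq (eq.symm k') (eq.symm k).1 = 0 := by
          apply Subtype.ext
          exact h5
        rw [h7, mul_zero]
    simp only [h4] at h3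
    rwa [Finset.sum_ite_eq' Finset.univ, if_pos (Finset.mem_univ _)] at h3
  -- the projection
  let P : (Fin N → Qa) →ₗ[Qa] (Fin g → ℂ) :=
    { toFun := fun c k => ∑ j, (c j : ℂ) * v j (eq.symm k).1
      map_add' := by
        intro c d
        funext k
        simp only [Pi.add_apply]
        rw [← Finset.sum_add_distrib]
        refine Finset.sum_congr rfl fun j _ => ?_
        push_cast
        ring
      map_smul' := by
        intro r c
        funext k
        simp only [Pi.smul_apply, RingHom.id_apply, smul_eq_mul]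
        rw [Algebra.smul_def, Finset.mul_sum]
        refine Finset.sum_congr rfl fun j _ => ?_
        have e3 : (algebraMap Qa ℂ) r = (r : ℂ) := rfl
        rw [e3]
        push_cast
        ring }
  have hP : ∀ c k, P c k = ∑ j, (c j : ℂ) * v j (eq.symm k).1 := fun c k => rfl
  have hinj : ∀ c ∈ Z, P c = 0 → c = 0 := by
    intro c hc h0
    have h1 : ∀ i, (∑ j, (c j : ℂ) * v j i) = 0 := by
      intro i
      rw [hZ c hc i]
      refine Finset.sum_eq_zero fun k _ => ?_
      have h2 := congrFun h0 (eq k)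
      rw [hP, Equiv.symm_apply_apply, Pi.zero_apply] at h2
      rw [h2, zero_mul]
    have h2 : ∑ j, c j • v j = 0 := by
      funext i
      rw [Finset.sum_apply, Pi.zero_apply, ← h1 i]
      refine Finset.sum_congr rfl fun j _ => ?_
      rw [Pi.smul_apply, Algebra.smul_def]
      rfl
    funext j
    exact Fintype.linearIndependent_iff.1 hv c h2 j
  have hrk := IH g (by rw [hg]; exact hJ) a' ha'i (Z.map P) (by
    rintro _ ⟨c, -, rfl⟩ k
    rw [hP]
    refine Submodule.sum_mem _ fun j _ => ?_
    have := Lsp.smul_mem (c j) (hvL j (eq.symm k).1)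
    rwa [Algebra.smul_def] at this) (by
    rintro _ ⟨c, hc, rfl⟩
    have h1 : ∑ i, a i * ∑ j, (c j : ℂ) * v j i = 0 := by
      have : ∀ i, a i * ∑ j, (c j : ℂ) * v j i = ∑ j, (c j : ℂ) * (a i * v j i) := by
        intro i
        rw [Finset.mul_sum]
        refine Finset.sum_congr rfl fun j _ => ?_
        ring
      simp only [this]
      rw [Finset.sum_comm]
      refine Finset.sum_eq_zero fun j _ => ?_
      rw [← Finset.mul_sum, hav, mul_zero]
    have h2 : ∀ i, (∑ j, (c j : ℂ) * v j i) =
        ∑ k : Fin g, P c k * b (eq.symm k) i := by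
      intro i
      rw [hZ c hc i, ← eq.symm.sum_comp]
      exact Finset.sum_congr rfl fun k _ => rfl
    simp only [h2] at h1
    rw [← h1]
    have h3 : ∀ i, a i * ∑ k, P c k * b (eq.symm k) i =
        ∑ k, P c k * (a i * b (eq.symm k) i) := by
      intro i
      rw [Finset.mul_sum]
      refine Finset.sum_congr rfl fun j _ => ?_
      ring
    simp only [h3]
    rw [Finset.sum_comm]
    refine Finset.sum_congr rfl fun k _ => ?_
    rw [ha', ← Finset.mul_sum, mul_comm])
  have hle : finrank Qa Z ≤ finrank Qa (Z.map P) := by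
    let Q : Z →ₗ[Qa] Z.map P := P.submoduleMap Z
    apply LinearMap.finrank_le_finrank_of_injective (f := Q)
    rw [← LinearMap.ker_eq_bot, LinearMap.ker_eq_bot']
    intro z hz
    apply Subtype.ext
    apply hinj z.1 z.2
    exact congrArg Subtype.val hz
  refine hle.trans ?_
  rw [← finrank_eq_rank] at hrk
  exact_mod_cast hrk

/-- Rational points of a space of algebraic coefficients. -/
theorem rk_ratl {K N : ℕ} (om : Fin (K + 1) → Qa) (homi : LinearIndependent ℚ om)
    (Z : Submodule Qa (Fin N → Qa)) (Zs : Submodule ℚ (Fin N × Fin (K + 1) → ℚ))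
    (h : ∀ s ∈ Zs, (fun j => ∑ l, s (j, l) • om l) ∈ Z) :
    finrank ℚ Zs ≤ (K + 1) * finrank Qa Z := by
  classical
  obtain ⟨I, hI, hI1, -⟩ := exists_coord Z
  let R : Zs →ₗ[ℚ] ({j // j ∉ I} × Fin (K + 1) → ℚ) :=
    (LinearMap.pi fun p => LinearMap.proj (p.1.1, p.2)).domRestrict Zs
  have hR : ∀ (s : Zs) p, R s p = s.1 (p.1.1, p.2) := fun s p => rfl
  have hinj : Function.Injective R := by
    rw [← LinearMap.ker_eq_bot, LinearMap.ker_eq_bot']
    intro s hs
    have h1 := h s.1 s.2
    have h2 := hI1 _ h1 (by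
      intro j hj
      refine Finset.sum_eq_zero fun l _ => ?_
      have := congrFun hs (⟨j, hj⟩, l)
      rw [hR, Pi.zero_apply] at this
      simp only at this
      rw [this, zero_smul])
    apply Subtype.ext
    funext ⟨j, l⟩
    exact Fintype.linearIndependent_iff.1 homi (fun l => s.1 (j, l)) (congrFun h2 j) l
  have h3 := LinearMap.finrank_le_finrank_of_injective hinj
  rw [finrank_fintype_fun_eq_card, Fintype.card_prod, Fintype.card_fin] at h3
  have h4 : Fintype.card {j // j ∉ I} = finrank Qa Z := by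
    have h5 : Fintype.card {j // j ∉ I} = N - I.card := by
      rw [Fintype.card_subtype_compl, Fintype.card_fin, Fintype.card_coe]
    rw [h5]
    rw [Fintype.card_fin] at hI
    omega
  rw [h4] at h3
  rw [mul_comm]
  exact h3

/-- **The rank of the group of relations.** -/
theorem rank_gen {σ : Type} [Fintype σ] {e K N : ℕ} (f : (σ → ℂ) →ₗ[ℂ] (Fin e → ℂ))
    (hf : ∀ (r : σ → ℤ) (i : Fin e), IsAlgebraic ℚ (f (fun t => (r t : ℂ)) i))
    (om : Fin (K + 1) → ℂ) (hom : ∀ l, IsAlgebraic ℚ (om l)) (homi : LinearIndependent ℚ om)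
    (a : Fin e → ℂ) (ha : LinearIndependent Qa a)
    (v : Fin N → Fin e → ℂ) (hv : LinearIndependent Qa v) (hvL : ∀ j i, v j i ∈ Lsp)
    (hav : ∀ j, ∑ i, a i * v j i = 0)
    (η : Fin N × Fin (K + 1) → σ → ℂ) (hη : ∀ j l, f (η (j, l)) = om l • v j)
    (Λ : AddSubgroup (σ → ℤ)) (IH : RkHyp e) (hlt : finrank ℂ ((perp Λ).map f) < e) :
    finrank ℚ (RelQ Λ η) ≤ (K + 1) * (finrank ℂ ((perp Λ).map f) *
      (finrank ℂ ((perp Λ).map f) + 1)) + Fintype.card σ := by
  classical
  -- the algebraic subspace
  set S : Set (Fin e → ℂ) := {w | ∃ r : σ → ℤ, (fun i => (r i : ℂ)) ∈ perp Λ ∧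
    w = f (fun i => (r i : ℂ))} with hS
  have hU : (perp Λ).map f = Submodule.span ℂ S := by
    conv_lhs => rw [rk_perp_span Λ]
    rw [Submodule.map_span]
    congr 1
    ext w
    constructor
    · rintro ⟨_, ⟨r, hr, rfl⟩, rfl⟩
      exact ⟨r, hr, rfl⟩
    · rintro ⟨r, hr, rfl⟩
      exact ⟨_, ⟨r, hr, rfl⟩, rfl⟩
  obtain ⟨J, b, hb, hdelta, hrep, hJ⟩ := rk_basis S (by
    rintro _ ⟨r, -, rfl⟩ i
    exact hf r i)
  rw [← hU] at hrep hJ
  set U := (perp Λ).map f with hUdef
  -- the map
  set ζ : (Fin N × Fin (K + 1) → ℚ) →ₗ[ℚ] (Fin e → ℂ) :=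
    Fintype.linearCombination ℚ fun p => f (η p) with hζ
  have hζs : ∀ s, ζ s = f (∑ p, (s p : ℂ) • η p) := by
    intro s
    rw [hζ, Fintype.linearCombination_apply, map_sum]
    refine Finset.sum_congr rfl fun p _ => ?_
    rw [map_smul]
    funext i
    rw [Pi.smul_apply, Pi.smul_apply, Rat.smul_def, smul_eq_mul]
  have homQ : ∃ o : Fin (K + 1) → Qa, ∀ l, (o l : ℂ) = om l :=
    ⟨fun l => ⟨om l, mem_algebraicClosure_iff.2 (hom l)⟩, fun l => rfl⟩
  obtain ⟨o, ho⟩ := homQ
  have hoi : LinearIndependent ℚ o := by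
    have h1 : (Qa.val.toLinearMap ∘ o) = om := funext ho
    apply LinearIndependent.of_comp Qa.val.toLinearMap
    rw [h1]
    exact homi
  set Z : Submodule Qa (Fin N → Qa) := Submodule.comap (Fintype.linearCombination Qa v)
    (U.restrictScalars Qa) with hZ
  set Zs : Submodule ℚ (Fin N × Fin (K + 1) → ℚ) := Submodule.comap ζ
    (U.restrictScalars ℚ) with hZs
  have hZmem : ∀ c : Fin N → Qa, c ∈ Z ↔ (∑ j, (c j : ℂ) • v j) ∈ U := by
    intro c
    rw [hZ, Submodule.mem_comap, Fintype.linearCombination_apply]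
    exact Iff.rfl
  have hZle : finrank Qa Z ≤ J.card * (J.card + 1) := by
    apply rk_coeff IH a ha v hv hvL hav J (by rw [hJ]; exact hlt) b hb hdelta Z
    intro c hc i
    have h1 := congrFun (hrep _ ((hZmem c).1 hc)) i
    simp only [Finset.sum_apply, Pi.smul_apply, smul_eq_mul] at h1
    exact h1
  have hZsle : finrank ℚ Zs ≤ (K + 1) * finrank Qa Z := by
    apply rk_ratl o hoi Z Zs
    intro s hs
    rw [hZmem]
    have h1 : ζ s ∈ U := hs
    have h2 : ζ s = ∑ j, ((∑ l, s (j, l) • o l : Qa) : ℂ) • v j := by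
      rw [hζ, Fintype.linearCombination_apply, Fintype.sum_prod_type]
      refine Finset.sum_congr rfl fun j _ => ?_
      have h3 : ((∑ l, s (j, l) • o l : Qa) : ℂ) = ∑ l, s (j, l) • om l := by
        have h4 := map_sum Qa.val.toLinearMap (fun l => s (j, l) • o l) Finset.univ
        have h5 : ∀ z : Qa, Qa.val.toLinearMap z = (z : ℂ) := fun z => rfl
        rw [h5] at h4
        rw [h4]
        refine Finset.sum_congr rfl fun l _ => ?_
        rw [map_smul, h5, ho]
      rw [h3, Finset.sum_smul]
      refine Finset.sum_congr rfl fun l _ => ?_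
      rw [hη, smul_assoc]
    rw [← h2]
    exact h1
  -- the map modulo the subspace
  set π : (Fin e → ℂ) →ₗ[ℚ] ((Fin e → ℂ) ⧸ U) := (U.mkQ).restrictScalars ℚ with hπ
  have hπ0 : ∀ w, π w = 0 ↔ w ∈ U := fun w => Submodule.Quotient.mk_eq_zero U
  set R := RelQ Λ η with hR
  set M : R →ₗ[ℚ] ((Fin e → ℂ) ⧸ U) := (π ∘ₗ ζ).domRestrict R with hM
  have hMapp : ∀ s : R, M s = π (ζ s.1) := fun s => rfl
  have h1 := LinearMap.finrank_range_add_finrank_ker M
  have hker : finrank ℚ (LinearMap.ker M) ≤ finrank ℚ Zs := by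
    have hmem : ∀ s : LinearMap.ker M, (s.1.1) ∈ Zs := by
      intro s
      have h2 : M s.1 = 0 := s.2
      rw [hMapp, hπ0] at h2
      exact h2
    let L : LinearMap.ker M →ₗ[ℚ] Zs :=
      LinearMap.codRestrict _ (R.subtype ∘ₗ (LinearMap.ker M).subtype) hmem
    apply LinearMap.finrank_le_finrank_of_injective (f := L)
    intro x y hxy
    apply Subtype.ext
    apply Subtype.ext
    have h3 : (L x).1 = (L y).1 := by rw [hxy]
    exact h3
  have hrange : finrank ℚ (LinearMap.range M) ≤ Fintype.card σ := by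
    set bs : σ → ((Fin e → ℂ) ⧸ U) := fun t =>
      π ((2 * Real.pi * Complex.I : ℂ) • f (Pi.single t 1)) with hbs
    have hle : LinearMap.range M ≤ Submodule.span ℚ (Set.range bs) := by
      have h2 : R.map (π ∘ₗ ζ) ≤ Submodule.span ℚ (Set.range bs) := by
        rw [hR]
        unfold RelQ
        rw [Submodule.map_span, Submodule.span_le]
        rintro _ ⟨s, ⟨s', hs', w, hw, n, hn⟩, rfl⟩
        have h3 : (∑ i, (s' i : ℂ) • η i) = w + (2 * Real.pi * Complex.I : ℂ) •
            fun i => (n i : ℂ) := by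
          funext i
          have := hn i
          simp only [Pi.zero_apply, sub_zero] at this
          rw [this]
          rfl
        have h4 : ζ s = f (∑ i, (s' i : ℂ) • η i) := by
          rw [hζs]
          congr 1
          refine Finset.sum_congr rfl fun i _ => ?_
          rw [hs' i]
          push_cast
          rfl
        have h5 : π (ζ s) = ∑ t, (n t : ℚ) • bs t := by
          rw [h4, h3, map_add, map_add, (hπ0 (f w)).2 ⟨w, hw, rfl⟩, zero_add, map_smul]
          have h6 : f (fun i => (n i : ℂ)) = ∑ t, (n t : ℂ) • f (Pi.single t 1) := by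
            have h7 : (fun i => (n i : ℂ)) = ∑ t, (n t : ℂ) • (Pi.single t 1 : σ → ℂ) := by
              funext i
              rw [Finset.sum_apply]
              simp [Pi.single_apply]
            rw [h7, map_sum]
            exact Finset.sum_congr rfl fun t _ => map_smul _ _ _
          rw [h6, Finset.smul_sum, map_sum]
          refine Finset.sum_congr rfl fun t _ => ?_
          have h8 : (2 * Real.pi * Complex.I : ℂ) • (n t : ℂ) • f (Pi.single t 1) =
              (n t : ℚ) • ((2 * Real.pi * Complex.I : ℂ) • f (Pi.single t 1)) := by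
            funext i
            simp only [Pi.smul_apply, smul_eq_mul, Rat.smul_def]
            push_cast
            ring
          rw [h8, map_smul]
        rw [SetLike.mem_coe, LinearMap.comp_apply, h5]
        exact Submodule.sum_mem _ fun t _ => Submodule.smul_mem _ _
          (Submodule.subset_span ⟨t, rfl⟩)
      rintro _ ⟨s, rfl⟩
      exact h2 ⟨s.1, s.2, rfl⟩
    have : FiniteDimensional ℚ (Submodule.span ℚ (Set.range bs)) :=
      FiniteDimensional.span_of_finite ℚ (Set.finite_range bs)
    exact (Submodule.finrank_mono hle).trans (finrank_range_le_card bs)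
  rw [hJ] at hZle
  have h2 : (K + 1) * finrank Qa Z ≤ (K + 1) * (finrank ℂ U * (finrank ℂ U + 1)) :=
    Nat.mul_le_mul_left _ hZle
  omega

end MP60829e.HP
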