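import Mathlib
import Pool.Agent.Lib.MP_60829e_nt.ST.Zero
import Pool.Agent.Lib.MP_60829e_nt.HP.AuxM
import Pool.Agent.Lib.MP_60829e_nt.HP.RankM

/-! # The core of the strong six exponentials theorem in several directions -/

open MvPolynomial Module

namespace MP60829e.HP

open MP60829e.ST

/-- numerical end of case A -/
private theorem cm_caseA {m j D T : ℕ} (hj : 1 ≤ j) (hjm : j ≤ m) (hT : T = m * D + 1)
    (h : T ^ j ≤ j.factorial * D ^ j) : False := by
  have h1 : m * D < T := by omega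
  have h2 : (m * D) ^ j < T ^ j := Nat.pow_lt_pow_left h1 (by omega)
  have h3 : j.factorial ≤ m ^ j := (Nat.factorial_le_pow j).trans (Nat.pow_le_pow_left hjm j)
  have h4 : j.factorial * D ^ j ≤ (m * D) ^ j := by
    rw [mul_pow]
    exact Nat.mul_le_mul_right _ h3
  omega

/-- numerical end of case B -/
private theorem cm_caseB {K e m w q D T S1 Y c : ℕ} (hm : m = e * (K + 1)) (hq : q ≤ e)
    (hwm : w + q ≤ m) (hD : 1 ≤ D) (hDY : D = Y ^ m) (hY : m * S1 = Y) (hm1 : 1 ≤ m)
    (hYbig : m ^ ((K + 1) * (e * e + 1)) * m.factorial < Y) (hT : D ≤ T)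
    (hc : S1 ^ ((K + 1) * (e * q + 1)) ≤ c)
    (h : c * T ^ w ≤ (w + q).factorial * D ^ (w + q)) : False := by
  have h1 : D ^ w ≤ T ^ w := Nat.pow_le_pow_left hT _
  have h2 : S1 ^ ((K + 1) * (e * q + 1)) * D ^ w ≤ (w + q).factorial * D ^ (w + q) :=
    (Nat.mul_le_mul hc h1).trans h
  have h4 : (w + q).factorial * D ^ (w + q) ≤ m.factorial * D ^ q * D ^ w := by
    rw [mul_assoc, ← pow_add, add_comm q w]
    exact Nat.mul_le_mul_right _ (Nat.factorial_le hwm)
  have h5 : S1 ^ ((K + 1) * (e * q + 1)) ≤ m.factorial * D ^ q :=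
    Nat.le_of_mul_le_mul_right (h2.trans h4) (pow_pos hD _)
  have h6 : Y ^ ((K + 1) * (e * q + 1)) ≤
      m ^ ((K + 1) * (e * q + 1)) * m.factorial * Y ^ ((K + 1) * (e * q)) := by
    have e1 : Y ^ ((K + 1) * (e * q + 1)) =
        m ^ ((K + 1) * (e * q + 1)) * S1 ^ ((K + 1) * (e * q + 1)) := by
      rw [← hY, mul_pow]
    have e2 : D ^ q = Y ^ ((K + 1) * (e * q)) := by
      rw [hDY, ← pow_mul, hm]
      congr 1
      ring
    rw [e1, mul_assoc, ← e2]
    exact Nat.mul_le_mul_left _ h5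
  have hY0 : 0 < Y := by omega
  have h7 : Y ^ (K + 1) ≤ m ^ ((K + 1) * (e * q + 1)) * m.factorial := by
    have e3 : Y ^ ((K + 1) * (e * q + 1)) = Y ^ (K + 1) * Y ^ ((K + 1) * (e * q)) := by
      rw [← pow_add]
      congr 1
      ring
    rw [e3] at h6
    exact Nat.le_of_mul_le_mul_right h6 (pow_pos hY0 _)
  have h8 : Y ≤ Y ^ (K + 1) := Nat.le_self_pow (by omega) Y
  have h9 : m ^ ((K + 1) * (e * q + 1)) ≤ m ^ ((K + 1) * (e * e + 1)) :=
    Nat.pow_le_pow_right hm1 (Nat.mul_le_mul_left _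
      (Nat.add_le_add_right (Nat.mul_le_mul_left _ hq) 1))
  have h10 : m ^ ((K + 1) * (e * q + 1)) * m.factorial ≤
      m ^ ((K + 1) * (e * e + 1)) * m.factorial := Nat.mul_le_mul_right _ h9
  omega

/-- The exponent in case B. -/
private theorem cm_exp {K e N g m : ℕ} (hm : m = e * (K + 1)) (hg : g < e)
    (hN : e * (e + 1) + 1 ≤ N) :
    (K + 1) * (e * (e - g) + 1) ≤ N * (K + 1) - ((K + 1) * (g * (g + 1)) + m) := by
  obtain ⟨d, rfl⟩ : ∃ d, e = g + 1 + d := ⟨e - (g + 1), by omega⟩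
  have h1 : g + 1 + d - g = d + 1 := by omega
  rw [h1, hm]
  apply Nat.le_sub_of_add_le
  have h2 : ((g + 1 + d) * (g + 1 + d + 1) + 1) * (K + 1) ≤ N * (K + 1) :=
    Nat.mul_le_mul_right _ hN
  refine le_trans ?_ h2
  have h3 : (K + 1) * ((g + 1 + d) * (d + 1) + 1) + ((K + 1) * (g * (g + 1)) +
      (g + 1 + d) * (K + 1)) + (K + 1) * (g * d) =
      ((g + 1 + d) * (g + 1 + d + 1) + 1) * (K + 1) := by ring
  omega

/-- A basis of the kernel with algebraic coordinates. -/
theorem cm_ker {σ : Type} [Fintype σ] {e n : ℕ} (f : (σ → ℂ) →ₗ[ℂ] (Fin e → ℂ))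
    (hfs : Function.Surjective f) (hn : n + e = Fintype.card σ)
    (hf : ∀ (r : σ → ℤ) (i : Fin e), IsAlgebraic ℚ (f (fun t => (r t : ℂ)) i)) :
    ∃ q : Fin n → σ → ℂ, (∀ j i, IsAlgebraic ℚ (q j i)) ∧
      Submodule.span ℂ (Set.range q) = LinearMap.ker f := by
  classical
  -- the matrix over the algebraic numbers
  have h1 : ∀ (t : σ) (i : Fin e), ∃ z : Qa, (z : ℂ) = f (Pi.single t 1) i := by
    intro t i
    have h2 := hf (Pi.single t 1) i
    have h3 : (fun s => ((Pi.single t (1 : ℤ) : σ → ℤ) s : ℂ)) = Pi.single t 1 := by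
      funext s
      rw [Pi.single_apply, Pi.single_apply]
      split_ifs <;> simp
    rw [h3] at h2
    exact ⟨⟨_, mem_algebraicClosure_iff.2 h2⟩, rfl⟩
  choose A hA using h1
  let F : (σ → Qa) →ₗ[Qa] (Fin e → Qa) :=
    { toFun := fun g i => ∑ t, g t * A t i
      map_add' := by
        intro g h
        funext i
        simp only [Pi.add_apply]
        rw [← Finset.sum_add_distrib]
        exact Finset.sum_congr rfl fun t _ => by ring
      map_smul' := by
        intro c g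
        funext i
        simp only [Pi.smul_apply, RingHom.id_apply, smul_eq_mul]
        rw [Finset.mul_sum]
        exact Finset.sum_congr rfl fun t _ => by ring }
  have hF : ∀ g i, F g i = ∑ t, g t * A t i := fun g i => rfl
  have hFf : ∀ g i, ((F g i : Qa) : ℂ) = f (fun t => (g t : ℂ)) i := by
    intro g i
    have h4 : (fun t => (g t : ℂ)) = ∑ t, (g t : ℂ) • (Pi.single t 1 : σ → ℂ) := by
      funext s
      rw [Finset.sum_apply]
      simp [Pi.single_apply]
    rw [h4, map_sum, Finset.sum_apply, hF]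
    push_cast
    refine Finset.sum_congr rfl fun t _ => ?_
    rw [map_smul, Pi.smul_apply, smul_eq_mul, hA]
  -- dimension of the kernel
  have h5 := F.finrank_range_add_finrank_ker
  rw [finrank_fintype_fun_eq_card] at h5
  have h6 : finrank Qa (LinearMap.range F) ≤ e := by
    have := Submodule.finrank_le (LinearMap.range F)
    rwa [finrank_fintype_fun_eq_card, Fintype.card_fin] at this
  have h7 : n ≤ finrank Qa (LinearMap.ker F) := by omega
  obtain ⟨I, hI, -, hI2⟩ := exists_coord (LinearMap.ker F)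
  have hcard : Fintype.card (Fin n) ≤ Fintype.card {j // j ∉ I} := by
    rw [Fintype.card_fin, Fintype.card_subtype_compl, Fintype.card_coe]
    omega
  obtain ⟨ι⟩ := Function.Embedding.nonempty_of_card_le hcard
  have hy : ∀ j : {j // j ∉ I}, ∃ t ∈ LinearMap.ker F, ∀ i, i ∉ I →
      (Pi.single j.1 1 : σ → Qa) i = t i := fun j => hI2 _
  choose T hTG hT using hy
  have hdelta : ∀ j j' : {j // j ∉ I}, T j j'.1 = if j = j' then 1 else 0 := by
    intro j j'
    rw [← hT j j'.1 j'.2, Pi.single_apply]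
    simp only [Subtype.ext_iff, eq_comm]
  set q : Fin n → σ → ℂ := fun k t => (T (ι k) t : ℂ) with hq
  have hqker : ∀ k, q k ∈ LinearMap.ker f := by
    intro k
    rw [LinearMap.mem_ker]
    funext i
    have h8 := hFf (T (ι k)) i
    have h9 : F (T (ι k)) = 0 := hTG (ι k)
    rw [h9] at h8
    rw [hq]
    simp only
    rw [← h8]
    simp
  have hli : LinearIndependent ℂ q := by
    rw [Fintype.linearIndependent_iff]
    intro c hc k
    have h1 := congrFun hc (ι k).1
    rw [Finset.sum_apply, Pi.zero_apply] at h1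
    have h2 : ∀ k', (c k' • q k') (ι k).1 = if k' = k then c k else 0 := by
      intro k'
      rw [Pi.smul_apply, smul_eq_mul, hq]
      simp only
      rw [hdelta]
      by_cases h : k' = k
      · rw [h]; simp
      · rw [if_neg (fun h' => h (ι.injective h')), if_neg h]
        simp
    simp only [h2] at h1
    rwa [Finset.sum_ite_eq' Finset.univ, if_pos (Finset.mem_univ _)] at h1
  refine ⟨q, fun j i => mem_algebraicClosure_iff.1 (T (ι j) i).2, ?_⟩
  apply Submodule.eq_of_le_of_finrank_eq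
  · rw [Submodule.span_le]
    rintro _ ⟨k, rfl⟩
    exact hqker k
  · rw [finrank_span_eq_card hli, Fintype.card_fin]
    have h10 := f.finrank_range_add_finrank_ker
    rw [LinearMap.range_eq_top.2 hfs, finrank_top, finrank_fintype_fun_eq_card,
      finrank_fintype_fun_eq_card, Fintype.card_fin] at h10
    omega

/-- Vectors which span the preimage of the hyperplane `a` modulo the kernel. -/
theorem cm_hyp {σ : Type} [Fintype σ] {e u : ℕ} (hu : u + 1 = e) (f : (σ → ℂ) →ₗ[ℂ] (Fin e → ℂ))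
    (hfs : Function.Surjective f) (a : Fin e → ℂ) (ha : a ≠ 0) :
    ∃ v0 : Fin u → σ → ℂ, ∀ y, (∑ i, a i * f y i = 0) →
      y ∈ Submodule.span ℂ (Set.range v0) ⊔ LinearMap.ker f := by
  classical
  let φ : (Fin e → ℂ) →ₗ[ℂ] ℂ := Fintype.linearCombination ℂ a
  have hφ : ∀ w, φ w = ∑ i, a i * w i := by
    intro w
    rw [Fintype.linearCombination_apply]
    exact Finset.sum_congr rfl fun i _ => by rw [smul_eq_mul, mul_comm]
  have hφs : LinearMap.range φ = ⊤ := by
    rw [LinearMap.range_eq_top]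
    apply LinearMap.surjective
    intro h0
    apply ha
    funext i
    have h1 := hφ (Pi.single i 1)
    rw [h0, LinearMap.zero_apply] at h1
    simpa [Pi.single_apply] using h1.symm
  have h1 := φ.finrank_range_add_finrank_ker
  rw [hφs, finrank_top, finrank_self, finrank_fintype_fun_eq_card, Fintype.card_fin] at h1
  have h2 : finrank ℂ (LinearMap.ker φ) = u := by omega
  let B := finBasisOfFinrankEq ℂ (LinearMap.ker φ) h2
  choose v0 hv0 using fun i => hfs (B i).1
  refine ⟨v0, fun y hy => ?_⟩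
  have h3 : f y ∈ LinearMap.ker φ := by
    rw [LinearMap.mem_ker, hφ]
    exact hy
  have h4 := congrArg Subtype.val (B.sum_repr ⟨f y, h3⟩)
  have h5 : y = (∑ i, B.repr ⟨f y, h3⟩ i • v0 i) + (y - ∑ i, B.repr ⟨f y, h3⟩ i • v0 i) := by
    abel
  rw [h5]
  apply Submodule.add_mem_sup
  · exact Submodule.sum_mem _ fun i _ => Submodule.smul_mem _ _ (Submodule.subset_span ⟨i, rfl⟩)
  · rw [LinearMap.mem_ker, map_sub, map_sum, sub_eq_zero]
    simp only [map_smul, hv0]
    rw [Submodule.coe_sum] at h4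
    exact h4.symm

/-- **The core.** -/
theorem coreM {σ : Type} [Fintype σ] {e K N : ℕ} (he : 2 ≤ e)
    (hσ : Fintype.card σ = e * (K + 1)) (f : (σ → ℂ) →ₗ[ℂ] (Fin e → ℂ))
    (hfs : Function.Surjective f)
    (hf : ∀ (r : σ → ℤ) (i : Fin e), IsAlgebraic ℚ (f (fun t => (r t : ℂ)) i))
    (om : Fin (K + 1) → ℂ) (hom : ∀ l, IsAlgebraic ℚ (om l)) (homi : LinearIndependent ℚ om)
    (a : Fin e → ℂ) (ha : LinearIndependent Qa a)
    (v : Fin N → Fin e → ℂ) (hv : LinearIndependent Qa v) (hvL : ∀ j i, v j i ∈ Lsp)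
    (hav : ∀ j, ∑ i, a i * v j i = 0)
    (η : Fin N × Fin (K + 1) → σ → ℂ) (hη : ∀ j l, f (η (j, l)) = om l • v j)
    (hexp : ∀ p t, IsAlgebraic ℚ (Complex.exp (η p t))) (IH : RkHyp e) : N ≤ e * (e + 1) := by
  classical
  by_contra hN
  have hN' : e * (e + 1) + 1 ≤ N := by omega
  obtain ⟨m, hm⟩ : ∃ m : ℕ, m = e * (K + 1) := ⟨_, rfl⟩
  have hcard : Fintype.card σ = m := by rw [hσ, hm]
  have hem : e ≤ m := by
    rw [hm]
    exact Nat.le_mul_of_pos_right e (by omega)
  obtain ⟨n, hn⟩ : ∃ n : ℕ, n + e = m := ⟨m - e, by omega⟩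
  obtain ⟨u, hu⟩ : ∃ u : ℕ, u + 1 = e := ⟨e - 1, by omega⟩
  obtain ⟨q, hq, hspan⟩ := cm_ker f hfs (by rw [hcard]; exact hn) hf
  have ha0 : a ≠ 0 := by
    intro h0
    have := ha.ne_zero (⟨0, by omega⟩ : Fin e)
    exact this (congrFun h0 _)
  obtain ⟨v0, hv0⟩ := cm_hyp hu f hfs a ha0
  have hy : ∀ j, η j ∈ Submodule.span ℂ (Set.range v0 ∪ Set.range q) := by
    intro p
    rw [Submodule.span_union, hspan]
    apply hv0
    have h1 := hη p.1 p.2
    rw [show (p.1, p.2) = p from rfl] at h1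
    rw [h1]
    have h2 : ∀ i, a i * (om p.2 • v p.1) i = om p.2 * (a i * v p.1 i) := by
      intro i
      rw [Pi.smul_apply, smul_eq_mul]
      ring
    simp only [h2]
    rw [← Finset.mul_sum, hav, mul_zero]
  obtain ⟨t0, ht0⟩ := exists_auxM (n := n) (u := u) (by rw [hcard]; omega) (by omega) q hq v0 η hy
    hexp (m ^ 2 + m)
  -- the parameters
  obtain ⟨E, hE⟩ : ∃ E : ℕ, E = (K + 1) * (e * e + 1) := ⟨_, rfl⟩
  obtain ⟨r, hr⟩ : ∃ r : ℕ, r = t0 + m ^ E * m.factorial + 1 := ⟨_, rfl⟩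
  obtain ⟨t, ht⟩ : ∃ t : ℕ, t = m * r := ⟨_, rfl⟩
  have hm1 : 1 ≤ m := by omega
  have hrt : r ≤ t := by
    rw [ht]
    exact Nat.le_mul_of_pos_left r hm1
  obtain ⟨Y, hY⟩ : ∃ Y : ℕ, Y = t ^ (4 * (n + u)) := ⟨_, rfl⟩
  obtain ⟨D, hD⟩ : ∃ D : ℕ, D = t ^ (4 * (n + u + 1) * (n + u)) := ⟨_, rfl⟩
  have hnu : n + u + 1 = m := by omega
  have hDY : D = Y ^ m := by
    rw [hD, hY, ← pow_mul, hnu]
    congr 1
    ring
  obtain ⟨S1, hS1⟩ : ∃ S1 : ℕ, S1 = r * t ^ (4 * (n + u) - 1) := ⟨_, rfl⟩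
  have hYS : m * S1 = Y := by
    rw [hS1, hY, ← mul_assoc, ← ht, ← pow_succ']
    congr 1
    omega
  have htpos : 0 < t := by omega
  have hS1pos : 1 ≤ S1 := by
    rw [hS1]
    exact Nat.mul_pos (by omega) (pow_pos htpos _)
  have hD1 : 1 ≤ D := by
    rw [hD]
    exact pow_pos htpos _
  have htY : t ≤ Y := by
    rw [hY]
    exact Nat.le_self_pow (by omega) t
  have hYbig : m ^ E * m.factorial < Y := by omega
  obtain ⟨P, hP, hPB, hPv⟩ := ht0 t (by omega)
  rw [← hD] at hPB hPv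
  rw [← hY] at hPv
  obtain ⟨T, hT⟩ : ∃ T : ℕ, T = m * D + 1 := ⟨_, rfl⟩
  -- the finite set
  obtain ⟨S, hS⟩ : ∃ S : Finset (σ → ℂ), S =
      Finset.univ.image (fun s : Fin N × Fin (K + 1) → Fin S1 =>
        ∑ i, ((s i : ℕ) : ℂ) • η i) := ⟨_, rfl⟩
  have hmemS : ∀ y, y ∈ S ↔ ∃ s : Fin N × Fin (K + 1) → ℕ, (∀ i, s i < S1) ∧
      y = ∑ i, (s i : ℂ) • η i := by
    intro y
    rw [hS, Finset.mem_image]
    constructor
    · rintro ⟨s, -, rfl⟩
      exact ⟨fun i => s i, fun i => (s i).2, rfl⟩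
    · rintro ⟨s, hs, rfl⟩
      exact ⟨fun i => ⟨s i, hs i⟩, Finset.mem_univ _, rfl⟩
  have h0S : (0 : σ → ℂ) ∈ S := by
    rw [hmemS]
    refine ⟨fun _ => 0, fun _ => hS1pos, ?_⟩
    simp
  obtain ⟨Λ, hΛ, hest⟩ := zero_estimate (D := D) (T := T) (by omega) P hP hPB S h0S
    (LinearMap.ker f) (by
    intro y hyS ws hws hl
    rw [hcard] at hl
    choose s hs hsy using fun i => (hmemS (y i)).1 (hyS i)
    have hsum : ∑ i, y i = ∑ j, ((∑ i, s i j : ℕ) : ℂ) • η j := by
      simp_rw [hsy]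
      rw [Finset.sum_comm]
      refine Finset.sum_congr rfl fun j _ => ?_
      rw [← Finset.sum_smul]
      push_cast
      rfl
    rw [hsum]
    refine hPv (fun j => ∑ i, s i j) (fun j => ?_) ws ?_ ?_
    · rw [← hYS]
      refine le_trans (le_of_lt ?_) (Nat.le_mul_of_pos_left (m * S1)
        (by positivity : 0 < m ^ 2 + m))
      calc ∑ i, s i j < ∑ _i : Fin (Fintype.card σ), S1 := by
            refine Finset.sum_lt_sum_of_nonempty ?_ fun i _ => hs i j
            rw [Finset.univ_nonempty_iff, hcard]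
            exact ⟨⟨0, hm1⟩⟩
        _ = m * S1 := by
            rw [Finset.sum_const, Finset.card_univ, Fintype.card_fin, hcard, smul_eq_mul]
    · intro w hw
      rw [hspan]
      exact hws w hw
    · refine hl.trans ?_
      rw [hT]
      have : m * (m * D + 1) = m ^ 2 * D + m * 1 := by ring
      rw [this, add_mul]
      exact Nat.add_le_add_left (Nat.mul_le_mul_left m hD1) _)
  rw [hcard] at hest
  -- dimensions
  have htop : finrank ℂ (σ → ℂ) = m := by
    rw [finrank_fintype_fun_eq_card, hcard]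
  have hW2 : finrank ℂ (LinearMap.ker f) + e = m := by
    have h10 := f.finrank_range_add_finrank_ker
    rw [LinearMap.range_eq_top.2 hfs, finrank_top, finrank_fintype_fun_eq_card,
      finrank_fintype_fun_eq_card, Fintype.card_fin, hcard] at h10
    omega
  have hUlt : finrank ℂ (perp Λ) < m := by
    rw [← htop]
    exact Submodule.finrank_lt hΛ
  obtain ⟨g, hg⟩ : ∃ g : ℕ, g = finrank ℂ ((perp Λ).map f) := ⟨_, rfl⟩
  have hdim : g + finrank ℂ (LinearMap.ker f ⊓ perp Λ : Submodule ℂ (σ → ℂ)) =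
      finrank ℂ (perp Λ) := by
    have h11 := (f.domRestrict (perp Λ)).finrank_range_add_finrank_ker
    rw [LinearMap.range_domRestrict, ← hg] at h11
    rw [← h11]
    congr 1
    rw [LinearMap.ker_domRestrict, inf_comm, ← Submodule.map_comap_subtype]
    exact Submodule.finrank_map_subtype_eq _ _
  have hge : g ≤ e := by
    have := Submodule.finrank_le ((perp Λ).map f)
    rwa [finrank_fintype_fun_eq_card, Fintype.card_fin, ← hg] at this
  have hinfle : finrank ℂ (LinearMap.ker f ⊓ perp Λ : Submodule ℂ (σ → ℂ)) ≤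
      finrank ℂ (LinearMap.ker f) := Submodule.finrank_mono inf_le_left
  rcases Nat.lt_or_ge g e with hlt | hge'
  · have hrank := rank_gen f hf om hom homi a ha v hv hvL hav η hη Λ IH (by rw [← hg]; exact hlt)
    rw [← hg, hcard] at hrank
    obtain ⟨S', hS'1, hS'2, hS'3⟩ := core_count Λ η _ hrank S1 hS1pos
    have h1 := hest S' (fun y hy' => (hmemS y).2 (hS'2 y hy')) hS'3
    rw [Fintype.card_prod, Fintype.card_fin, Fintype.card_fin] at hS'1
    have h2 := cm_exp hm hlt hN'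
    have h3 : S1 ^ ((K + 1) * (e * (e - g) + 1)) ≤ S'.card :=
      (Nat.pow_le_pow_right hS1pos h2).trans hS'1
    have h4 : m - finrank ℂ (perp Λ) = finrank ℂ (LinearMap.ker f) -
        finrank ℂ (LinearMap.ker f ⊓ perp Λ : Submodule ℂ (σ → ℂ)) + (e - g) := by omega
    rw [h4] at h1
    refine cm_caseB hm (Nat.sub_le e g) (by omega) hD1 hDY hYS hm1 (by rw [← hE]; exact hYbig)
      ?_ h3 h1
    rw [hT]
    exact (Nat.le_mul_of_pos_left D hm1).trans (Nat.le_succ _)
  · have hg2 : g = e := le_antisymm hge hge'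
    have h1 := hest {0} (Finset.singleton_subset_iff.2 h0S) (by
      intro y hy' z hz hyz
      rw [Finset.mem_singleton] at hy' hz
      exact absurd (hy'.trans hz.symm) hyz)
    rw [Finset.card_singleton, one_mul] at h1
    have h2 : finrank ℂ (LinearMap.ker f) -
        finrank ℂ (LinearMap.ker f ⊓ perp Λ : Submodule ℂ (σ → ℂ)) =
          m - finrank ℂ (perp Λ) := by omega
    rw [h2] at h1
    exact cm_caseA (by omega) (by omega) hT h1

end MP60829e.HP
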