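import Mathlib
import Pool.Agent.Lib.MP_60829e_nt.ST.StrField
import Pool.Agent.Lib.MP_60829e_nt.HP.CWM
import Pool.Agent.Lib.MP_60829e_nt.HP.CorM

/-! # The hyperplane theorem from its core -/

open Module

namespace MP60829e.HP

open MP60829e.ST

/-- The points `η` for a vector of linear forms in logarithms. -/
private theorem exists_eta {e N : ℕ} (v : Fin N → Fin e → ℂ) (hvL : ∀ j i, v j i ∈ Lsp) :
    ∃ (K : ℕ) (om : Fin (K + 1) → ℂ) (η : Fin N × Fin (K + 1) → Fin e × Fin (K + 1) → ℂ),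
      (∀ l, IsAlgebraic ℚ (om l)) ∧ LinearIndependent ℚ om ∧
      (∀ p t, IsAlgebraic ℚ (Complex.exp (η p t))) ∧
      ∀ j l, fM om (η (j, l)) = om l • v j := by
  classical
  have hA : ∀ p : Fin N × Fin e, ∃ A : Finset ℂ, (∀ a ∈ A, IsAlgebraic ℚ a) ∧
      ∀ (k : ℕ) (om : Fin (k + 1) → ℂ),
      (∀ a ∈ A, ∃ r : Fin (k + 1) → ℚ, a = ∑ i, (r i : ℂ) * om i) →
      ∃ lam : Fin (k + 1) → ℂ, (∀ i, IsAlgebraic ℚ (Complex.exp (lam i))) ∧
        v p.1 p.2 = ∑ i, om i * lam i := fun p => mem_log_span (v p.1 p.2) (hvL p.1 p.2)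
  choose A hAalg hAlam using hA
  obtain ⟨K, om, mult, hom, hind, hmul, hrep⟩ := numfield (Finset.univ.biUnion A) (by
    intro a ha
    rw [Finset.mem_biUnion] at ha
    obtain ⟨p, -, h⟩ := ha
    exact hAalg p a h)
  have hlam : ∀ p : Fin N × Fin e, ∃ lam : Fin (K + 1) → ℂ,
      (∀ i, IsAlgebraic ℚ (Complex.exp (lam i))) ∧
        v p.1 p.2 = ∑ i, om i * lam i := fun p => hAlam p K om fun a ha => hrep a (by
      rw [Finset.mem_biUnion]
      exact ⟨p, Finset.mem_univ p, ha⟩)
  choose lam hlexp hlz using hlam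
  have hprod : ∀ (l : Fin (K + 1)) (c : Fin (K + 1) → ℂ),
      ∑ i', om i' * ∑ i, (mult l i i' : ℂ) * c i = om l * ∑ i, om i * c i := by
    intro l c
    calc ∑ i', om i' * ∑ i, (mult l i i' : ℂ) * c i
        = ∑ i', ∑ i, om i' * ((mult l i i' : ℂ) * c i) :=
          Finset.sum_congr rfl fun i' _ => by rw [Finset.mul_sum]
      _ = ∑ i, ∑ i', om i' * ((mult l i i' : ℂ) * c i) := Finset.sum_comm
      _ = ∑ i, (om l * om i) * c i := by
          refine Finset.sum_congr rfl fun i _ => ?_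
          rw [hmul l i, Finset.sum_mul]
          exact Finset.sum_congr rfl fun i' _ => by ring
      _ = om l * ∑ i, om i * c i := by
          rw [Finset.mul_sum]
          exact Finset.sum_congr rfl fun i _ => by ring
  have hexp : ∀ (l i' : Fin (K + 1)) (c : Fin (K + 1) → ℂ),
      (∀ i, IsAlgebraic ℚ (Complex.exp (c i))) →
      IsAlgebraic ℚ (Complex.exp (∑ i, (mult l i i' : ℂ) * c i)) := by
    intro l i' c hc
    have h1 : (∑ i, (mult l i i' : ℂ) * c i) ∈ SE.Lg := by
      apply Submodule.sum_mem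
      intro i _
      have h2 : (mult l i i' : ℂ) * c i = (mult l i i' : ℚ) • c i := by
        rw [Rat.smul_def]
        push_cast
        rfl
      rw [h2]
      exact SE.Lg.smul_mem _ (hc i)
    exact h1
  refine ⟨K, om, fun p t => ∑ i, (mult p.2 i t.2 : ℂ) * lam (p.1, t.1) i, hom, hind,
    fun p t => hexp p.2 t.2 _ (hlexp (p.1, t.1)), fun j l => ?_⟩
  funext i
  rw [fM_apply, Pi.smul_apply, smul_eq_mul]
  have h1 := hlz (j, i)
  simp only at h1
  rw [h1]
  exact hprod l (lam (j, i))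

/-- The hyperplane theorem, with the rank as a cardinal; induction on `e`.  `N = e (e + 1) + 1`
independent vectors would contradict `coreM` (`e ≥ 2`); for `e ≤ 1` the space is zero. -/
theorem hp_rank {e : ℕ} : ∀ a : Fin e → ℂ, LinearIndependent Qa a →
    ∀ V : Submodule Qa (Fin e → ℂ), (∀ v ∈ V, ∀ i, v i ∈ Lsp) →
      (∀ v ∈ V, ∑ i, a i * v i = 0) → Module.rank Qa V ≤ ((e * (e + 1) : ℕ) : Cardinal) := by
  induction e using Nat.strong_induction_on with
  | _ e IH =>
  intro a ha V hV hs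
  by_contra hlt
  have h1 : ((e * (e + 1) + 1 : ℕ) : Cardinal) ≤ Module.rank Qa V := by
    have h := Order.succ_le_of_lt (not_le.1 hlt)
    rwa [← Cardinal.nat_succ] at h
  obtain ⟨w, hw⟩ := Module.le_rank_iff.1 h1
  set v : Fin (e * (e + 1) + 1) → Fin e → ℂ := fun j => (w j : Fin e → ℂ) with hv
  have hvi : LinearIndependent Qa v :=
    hw.map' V.subtype (LinearMap.ker_eq_bot.2 V.subtype_injective)
  have hvV : ∀ j, v j ∈ V := fun j => (w j).2
  rcases Nat.lt_or_ge e 2 with he | he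
  · apply hvi.ne_zero 0
    funext i
    have he1 : e = 1 := by
      have := i.2
      omega
    subst he1
    obtain rfl : i = 0 := Subsingleton.elim _ _
    have h2 := hs _ (hvV 0)
    rw [Fin.sum_univ_one] at h2
    exact (mul_eq_zero.1 h2).resolve_left (ha.ne_zero 0)
  · obtain ⟨K, om, η, hom, homi, hexp, hη⟩ := exists_eta v fun j i => hV _ (hvV j) i
    have h2 := coreM (σ := Fin e × Fin (K + 1)) he (by
      rw [Fintype.card_prod, Fintype.card_fin, Fintype.card_fin]) (fM om)
      (fM_surjective om (homi.ne_zero 0)) (fun r i => by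
        rw [fM_apply]
        refine Subalgebra.sum_mem (integralClosure ℚ ℂ) (fun l _ => ?_) |>.isAlgebraic
        exact ((hom l).mul (isAlgebraic_intCast _)).isIntegral) om hom homi a ha v hvi
      (fun j i => hV _ (hvV j) i) (fun j => hs _ (hvV j)) η hη hexp
      (fun e' he' a' ha' V' hV' hs' => IH e' he' a' ha' V' hV' hs')
    omega

end MP60829e.HP
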