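import Mathlib
import Pool.Agent.Lib.MP_60829e_nt.ST.StrField
import Pool.Agent.Lib.MP_60829e_nt.HP.FieldM

/-! # The hyperplane theorem -/

open Module

namespace MP60829e.HP

open MP60829e.ST (Qa Lsp Lt)

/-- The hyperplane theorem (weak constant). -/
theorem hp {e : ℕ} (a : Fin e → ℂ) (ha : LinearIndependent Qa a) (V : Submodule Qa (Fin e → ℂ))
    (hV : ∀ v ∈ V, ∀ i, v i ∈ Lsp) (hs : ∀ v ∈ V, ∑ i, a i * v i = 0) :
    FiniteDimensional Qa V ∧ finrank Qa V ≤ e * (e + 1) := by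
  have h := hp_rank a ha V hV hs
  have hfin : FiniteDimensional Qa V :=
    Module.rank_lt_aleph0_iff.1 (h.trans_lt (Cardinal.natCast_lt_aleph0))
  refine ⟨hfin, ?_⟩
  rw [← finrank_eq_rank] at h
  exact_mod_cast h

end MP60829e.HP
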